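import Pool.Agent.W792.WA.Stm5

/-!
Support and atoms of the convolution of a law with a level (part NP-ATM). The lemmas are those of
`Pool/Agent/W685/WA/Step.lean`, for any level function.
-/

namespace Pool.Agent.N196.NP.ATM

open MeasureTheory Filter Pool.Agent.W792.LL Pool.Agent.W792.WA
open scoped Topology

noncomputable section

theorem meas_lev (ψ : C(UnitAddCircle, ℝ)) (l : ℝ) :
    Measurable (fun φ : ℝ => l * ψ (φ : UnitAddCircle)) := by
  have : Continuous (fun φ : ℝ => l * ψ (φ : UnitAddCircle)) :=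
    continuous_const.mul (ψ.continuous.comp (AddCircle.continuous_mk' (1 : ℝ)))
  exact this.measurable

theorem prob_Ioc : IsProbabilityMeasure (volume.restrict (Set.Ioc (0 : ℝ) 1)) := ⟨by simp⟩

theorem prob_lev (ψ : C(UnitAddCircle, ℝ)) (l : ℝ) : IsProbabilityMeasure (lev ψ l) := by
  unfold lev
  have := prob_Ioc
  exact Measure.isProbabilityMeasure_map (meas_lev ψ l).aemeasurable

theorem lev_supp {ψ : C(UnitAddCircle, ℝ)} (hψ : IsLv ψ) {l : ℝ} (hl : 0 < l) :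
    ∀ᵐ a ∂(lev ψ l), |a| ≤ l := by
  unfold lev
  rw [ae_map_iff (meas_lev ψ l).aemeasurable (measurableSet_le (by fun_prop) (by fun_prop))]
  filter_upwards with φ
  rw [abs_mul, abs_of_pos hl]
  nlinarith [hψ.bound (φ : UnitAddCircle)]

theorem lev_atom {ψ : C(UnitAddCircle, ℝ)} (hψ : IsLv ψ) {l : ℝ} (hl : 0 < l) (a : ℝ) :
    lev ψ l {a} = 0 := by
  unfold lev
  rw [Measure.map_apply (meas_lev ψ l) (measurableSet_singleton a),
    Measure.restrict_apply ((meas_lev ψ l) (measurableSet_singleton a))]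
  have : (fun φ : ℝ => l * ψ (φ : UnitAddCircle)) ⁻¹' {a} ∩ Set.Ioc 0 1
      = {φ : ℝ | φ ∈ Set.Ioc (0 : ℝ) 1 ∧ ψ (φ : UnitAddCircle) = a / l} := by
    ext φ
    simp only [Set.mem_inter_iff, Set.mem_preimage, Set.mem_singleton_iff, Set.mem_ofPred_eq]
    rw [eq_div_iff hl.ne', mul_comm (ψ (φ : UnitAddCircle)) l]
    tauto
  rw [this]
  exact hψ.atom _

theorem conv_supp {ψ : C(UnitAddCircle, ℝ)} (hψ : IsLv ψ) {l : ℝ} (hl : 0 < l)
    {ρ : Measure ℝ} [IsProbabilityMeasure ρ] {C : ℝ} (hρ : ρ (Set.Icc (-C) C)ᶜ = 0) :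
    ((lev ψ l).conv ρ) (Set.Icc (-(C + l)) (C + l))ᶜ = 0 := by
  have := prob_lev ψ l
  have h1 : ∀ᵐ p ∂((lev ψ l).prod ρ), p.1 + p.2 ∈ Set.Icc (-(C + l)) (C + l) := by
    have a1 : ∀ᵐ p ∂((lev ψ l).prod ρ), |p.1| ≤ l :=
      Measure.quasiMeasurePreserving_fst.ae (lev_supp hψ hl)
    have a2 : ∀ᵐ p ∂((lev ψ l).prod ρ), p.2 ∈ Set.Icc (-C) C := by
      have : ∀ᵐ b ∂ρ, b ∈ Set.Icc (-C) C := by
        rw [ae_iff]; exact hρ
      exact Measure.quasiMeasurePreserving_snd.ae this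
    filter_upwards [a1, a2] with p h1 h2
    have := abs_le.1 h1
    constructor <;> linarith [h2.1, h2.2]
  rw [Measure.conv, Measure.map_apply (by fun_prop) measurableSet_Icc.compl]
  exact ae_iff.1 h1

theorem conv_atom {ψ : C(UnitAddCircle, ℝ)} (hψ : IsLv ψ) {l : ℝ} (hl : 0 < l)
    {ρ : Measure ℝ} [IsProbabilityMeasure ρ] (a : ℝ) : ((lev ψ l).conv ρ) {a} = 0 := by
  have := prob_lev ψ l
  have hms : MeasurableSet ((fun x : ℝ × ℝ => x.1 + x.2) ⁻¹' {a}) :=
    (measurable_fst.add measurable_snd) (measurableSet_singleton a)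
  rw [Measure.conv, Measure.map_apply (by fun_prop) (measurableSet_singleton a),
    Measure.prod_apply_symm hms]
  rw [lintegral_eq_zero_iff' (measurable_measure_prodMk_right hms).aemeasurable]
  filter_upwards with y
  have : (fun x : ℝ => (x, y)) ⁻¹' ((fun x : ℝ × ℝ => x.1 + x.2) ⁻¹' {a}) = {a - y} := by
    ext x
    simp only [Set.mem_preimage, Set.mem_singleton_iff]
    constructor <;> intro h <;> linarith
  rw [this]
  exact lev_atom hψ hl _

theorem conv_two {ψ : C(UnitAddCircle, ℝ)} (hψ : IsLv ψ) {l : ℝ} (hl : 0 < l)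
    {ρ : Measure ℝ} [IsProbabilityMeasure ρ] (a b : ℝ) : ((lev ψ l).conv ρ) {a, b} < 1 := by
  have h : ((lev ψ l).conv ρ) {a, b} ≤ 0 := by
    calc ((lev ψ l).conv ρ) {a, b} = ((lev ψ l).conv ρ) ({a} ∪ {b}) := by rfl
      _ ≤ ((lev ψ l).conv ρ) {a} + ((lev ψ l).conv ρ) {b} := measure_union_le _ _
      _ = 0 := by rw [conv_atom hψ hl, conv_atom hψ hl, add_zero]
  exact lt_of_le_of_lt h zero_lt_one

theorem main : S_ATM := by
  intro ψ l C ρ _ hψ hl
  exact ⟨prob_lev ψ l, fun h => conv_supp hψ hl h, fun a b => conv_two hψ hl a b⟩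

end

end Pool.Agent.N196.NP.ATM
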